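import Pool.Agent.Lib_helper87.Ehrhart.Main

/-!
Volume of lattice polytopes with `h*`-polynomial `1 + a t^k + b t^{2k}`, `b ≥ 2`:
the inequality `a + b + 1 ≤ (4b+4)k` holds for every `k ≥ 2` (the case `k = 1` was known).

Sketch of the proof.  For `k ≥ 2` the coefficient `h*_1` vanishes, so the polytope has exactly
`d+1` lattice points and is a simplex.  Its `h*`-polynomial is the height enumerator of a finite
abelian group `G` of order `m = a+b+1`; every nonzero element has height `k` or `2k`.
Let `K i` be the subgroup of elements whose `i`-th coordinate vanishes and `n = [G : K i]`.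
Comparing the sum of `ht g + ht (-g)` over `K i` and over `G` gives
`m - |K i| ≤ 2k (b - 1 + n)`.  If some `n` is `2` or `3` this is the claim.  Otherwise all nontrivial
indices are at least `4`, and since an element of height `2k` has at least `3k` nonzero coordinates,
`m ≤ 8 (b - 1)`.
-/

namespace Pool.Agent.Results.MP_362855_co.TrinomialVolume

open Pool.Agent.Lib_helper87.Ehrhart

/-- If `P ⊂ ℝ^d` is a full-dimensional lattice polytope with `h*`-polynomial
`1 + a t^k + b t^{2k}`, where `k ≥ 2` and `b ≥ 2`, then `a + b + 1 ≤ (4b+4) k`. -/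
theorem result (d : ℕ) (P : Set (Fin d → ℝ)) (hP : IsLatticePolytope P)
    (k a b : ℕ) (hk : 2 ≤ k) (hb : 2 ≤ b)
    (h : IsHStar P (1 + Polynomial.C (a : ℤ) * Polynomial.X ^ k
      + Polynomial.C (b : ℤ) * Polynomial.X ^ (2 * k))) :
    a + b + 1 ≤ (4 * b + 4) * k :=
  main hP hk hb h

end Pool.Agent.Results.MP_362855_co.TrinomialVolume
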